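import Mathlib
import Pool.Agent.Work.MP_87745a_al_h31.Growth

/-!
Problem MP_87745a_al, Q1, partial answer: if a crossed product of a group `G` over a ring `K` is a
division ring, then `G` is amenable (it satisfies the Folner condition). So Q1 has a positive
answer for every non-amenable group: no crossed product of it is a division ring.

As in the frozen statement, a crossed product of `G` that is a division ring is a division ring `D`
with a `G`-grading `𝒜` all of whose components are nonzero.
-/

set_option autoImplicit false

namespace Pool.Agent.Results.MP_87745a_al.AmenableGroup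

/-- Let `D` be a division ring graded by a group `G` with all components nonzero (a crossed product
of `G` over `K = 𝒜 0` which is a division ring). Then `G` satisfies the Folner condition, i.e. `G`
is amenable: for every finite set `S ⊆ G` and every `ε > 0` there is a finite nonempty set `F ⊆ G`
such that `|{g ∈ F : g s ∉ F}| ≤ ε |F|` for all `s ∈ S`. -/
theorem result (G : Type*) [Group G] (D : Type*) [DivisionRing D]
    [DecidableEq (Additive G)] (𝒜 : Additive G → AddSubgroup D) [GradedRing 𝒜]
    (h𝒜 : ∀ g : Additive G, 𝒜 g ≠ ⊥) (S : Finset G) (ε : ℝ) (hε : 0 < ε) :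
    ∃ F : Finset G, F.Nonempty ∧
      ∀ s ∈ S, ({g : G | g ∈ F ∧ g * s ∉ F}.ncard : ℝ) ≤ ε * F.card :=
  Pool.Agent.Work.MP_87745a_al.folner G D 𝒜 h𝒜 S ε hε

end Pool.Agent.Results.MP_87745a_al.AmenableGroup
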