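import Mathlib
import Pool.Agent.Work.MP_87745a_al_h92.Sch

/-!
Problem MP_87745a_al, Q1, partial answer: groups with a half-line, a line or a tree without dead
ends as a Schreier graph, for instance the Grigorchuk groups, are never the group of a crossed
product which is a division ring.

As in the frozen statement, a crossed product of `G` that is a division ring is a division ring `D`
with a `G`-grading `𝒜` all of whose components are nonzero.
-/

set_option autoImplicit false

namespace Pool.Agent.Results.MP_87745a_al.SchreierGraphs

/-- Let `D` be a division ring graded by a group `G` with all components nonzero. Let `G` act on a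
set `Y`, let `S ⊆ G` be finite, `o` a point of `Y` and `l` a map from `Y` to a linearly ordered set.
Then it is impossible that every point `x` of the orbit of `o` under the subgroup generated by `S`
has a private neighbour: a point `s • x ≠ o`, `s ∈ S`, such that every other point `x'` of the orbit
with `s • x ∈ S • x'` satisfies `l x < l x'`. -/
theorem result (G : Type*) [Group G] (D : Type*) [DivisionRing D]
    [DecidableEq (Additive G)] (𝒜 : Additive G → AddSubgroup D) [GradedRing 𝒜]
    (h𝒜 : ∀ g : Additive G, 𝒜 g ≠ ⊥)
    (Y : Type*) [MulAction G Y] (S : Finset G) (o : Y) (α : Type*) [LinearOrder α] (l : Y → α) :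
    ¬ ∀ x ∈ MulAction.orbit (Subgroup.closure (S : Set G)) o, ∃ s ∈ S, s • x ≠ o ∧
      ∀ x' ∈ MulAction.orbit (Subgroup.closure (S : Set G)) o, ∀ s' ∈ S,
        s' • x' = s • x → x' ≠ x → l x < l x' :=
  fun h => Pool.Agent.Work.MP87745.Sch.no_private 𝒜 h𝒜 S o l h

end Pool.Agent.Results.MP_87745a_al.SchreierGraphs
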