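import Mathlib
import Pool.Agent.Work.MP_87745a_sp.Asm
import Pool.Agent.Work.MP_87745a_sp.B_GOD
import Pool.Agent.Work.MP_87745a_sp.B_ELM
import Pool.Agent.Work.MP_87745a_sp.B_DEL
import Pool.Agent.Work.MP_87745a_sp.B_PTH
import Pool.Agent.Work.MP_87745a_sp.B_ALG
import Pool.Agent.Work.MP_87745a_sp.B_AL2
import Pool.Agent.Work.MP_87745a_sp.B_AL3
import Pool.Agent.Work.MP_87745a_sp.B_STG
import Pool.Agent.Work.MP_87745a_sp.B_STP
import Pool.Agent.Work.MP_87745a_sp.B_DSC
import Pool.Agent.Work.MP_87745a_sp.B_TAU
import Pool.Agent.Work.MP_87745a_sp.B_DAT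

/-!
Problem MP_87745a_al, Q1, partial answer: spinal groups are not sections of a group which has a
crossed product that is a division ring.

As in the frozen statement, a crossed product of `G` that is a division ring is a division ring `D`
with a `G`-grading `𝒜` all of whose components are nonzero.
-/

set_option autoImplicit false

namespace Pool.Agent.Results.MP_87745a_al.SpinalGroups

open Pool.Agent.Work.MP87745.SP in
/-- Let `A` be a nontrivial finite group, `B` a finite abelian group and `ω n v : B → A`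
(`n = 0, 1, 2, …`, `v ∈ A`) homomorphisms such that for each `n` the images of the `ω n v` with
`v ≠ 1` generate `A`. Let `r a` (`a ∈ A`) and `d n β` (`β ∈ B`) be the permutations of the set of
infinite sequences over `A` such that `r a` multiplies the first letter by `a` on the left, and
`d n β` keeps the first letter `x` and acts on the rest of the sequence as `d (n+1) β` if `x = 1` and
as `r (ω n x β)` otherwise; suppose that all `d n` are injective. Suppose that (1) there is `s ∈ B`,
`s² ≠ 1`, such that `B` is generated by the `u` with `u² ≠ 1`, `u ≠ s`, `u ≠ s⁻¹`, or (2) `|A| = 2`, or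
(3) `|A| = |B| = 3`. Let `D` be a division ring graded by a group `G` with all components nonzero.
Then no homomorphism `f` from a subgroup `H` of `G` to the permutations has all `r a` and all
`d 0 β` in its range, that is, the spinal group generated by the `r a` and `d 0 β` is not a section
of `G`. -/
theorem result (A : Type*) [Group A] [Finite A] [DecidableEq A] [Nontrivial A] (B : Type*)
    [CommGroup B] [Finite B] (ω : ℕ → A → B →* A)
    (hω : ∀ n, Subgroup.closure {a : A | ∃ v, v ≠ 1 ∧ ∃ β, a = ω n v β} = ⊤)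
    (hAB : (∃ s : B, s * s ≠ 1 ∧ Subgroup.closure {u : B | u * u ≠ 1 ∧ u ≠ s ∧ u ≠ s⁻¹} = ⊤) ∨
      Nat.card A = 2 ∨ (Nat.card A = 3 ∧ Nat.card B = 3))
    (r : A →* Equiv.Perm (Stream' A))
    (hr : ∀ a x y, r a (Stream'.cons x y) = Stream'.cons (a * x) y)
    (d : ℕ → B →* Equiv.Perm (Stream' A))
    (hd : ∀ n β x y, d n β (Stream'.cons x y) =
      Stream'.cons x (if x = 1 then d (n + 1) β y else r (ω n x β) y))
    (hinj : ∀ n, Function.Injective (d n))
    (G : Type*) [Group G] (D : Type*) [DivisionRing D] [DecidableEq (Additive G)]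
    (𝒜 : Additive G → AddSubgroup D) [GradedRing 𝒜] (h𝒜 : ∀ g : Additive G, 𝒜 g ≠ ⊥)
    (H : Subgroup G) (f : H →* Equiv.Perm (Stream' A)) :
    ¬ ((∀ a, r a ∈ f.range) ∧ ∀ β, d 0 β ∈ f.range) := by
  classical
  haveI : Fintype A := Fintype.ofFinite A
  exact main p_GOD (p_ALG p_ELM p_DEL p_PTH) p_AL2 (p_AL3 p_DEL) (p_DSC p_STG p_STP)
    (p_DAT p_TAU) A B ω hω hAB r hr d hd hinj G D 𝒜 h𝒜 H f

end Pool.Agent.Results.MP_87745a_al.SpinalGroups
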