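import Mathlib
import Pool.Agent.Work.MP_87745a_al_h92.Asm

/-!
Problem MP_87745a_al, Q1, partial answer: crossed products of 2-groups in which the group acts on
the coefficient ring by inner automorphisms (for instance twisted group rings).

As in the frozen statement, the crossed product is a ring graded by `G` whose identity component
`K` is `𝒜 0`. Here it is only assumed to be a domain, and the elements `g` of the finite set `s`
act on `K` by inner automorphisms: the component of `g` contains a unit `u` which commutes with `K`.
-/

set_option autoImplicit false

namespace Pool.Agent.Results.MP_87745a_al.TwoGroups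

/-- Let `R` be a domain graded by a group `G`, with identity component `K = 𝒜 0` (for instance a
crossed product of `G` over `K` which is a division ring, or only has no zero divisors). Let `s` be
a finite set of elements `g` of `G` such that the component of `g` contains a unit of `R` commuting
with all of `K` (i.e. `σ(g)` is an inner automorphism of `K`). If every element of the subgroup
generated by `s` has order a power of `2`, then this subgroup is finite. -/
theorem result (G : Type*) [Group G] (R : Type*) [Ring R] [IsDomain R]
    [DecidableEq (Additive G)] (𝒜 : Additive G → AddSubgroup R) [GradedRing 𝒜]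
    (s : Finset G)
    (hs : ∀ g ∈ s, ∃ u : Rˣ, (u : R) ∈ 𝒜 (Additive.ofMul g) ∧
      ∀ k ∈ 𝒜 0, (u : R) * k = k * (u : R))
    (h2 : ∀ g ∈ Subgroup.closure (s : Set G), ∃ n : ℕ, g ^ (2 ^ n) = 1) :
    Finite (Subgroup.closure (s : Set G)) :=
  Pool.Agent.Work.MP87745.finite_closure 𝒜 s h2 hs

end Pool.Agent.Results.MP_87745a_al.TwoGroups
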